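import Pool.Agent.W682.TW.Stm

/-!
Project TW, part F0: value of the minorant at `F0`.
-/

set_option autoImplicit false

namespace Pool.Agent.W377.TW.F0

open Pool.Agent.W682.TW

variable {n m : ℕ}

theorem col_zero (e : Ix n ≃ Fin m) (ι : Ix n) : col e (Pool.Agent.W682.TW.F0 e) ι 0 = 0 := by
  simp [col, Pool.Agent.W682.TW.F0]

theorem col_one (e : Ix n ≃ Fin m) (ι : Ix n) (h : ι ≠ .inl (.inl ())) :
    col e (Pool.Agent.W682.TW.F0 e) ι 1 = 0 := by
  have h1 : e ι ≠ e (.inl (.inl ())) := fun h2 => h (e.injective h2)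
  simp [col, Pool.Agent.W682.TW.F0, h1]

theorem col_o (e : Ix n ≃ Fin m) : col e (Pool.Agent.W682.TW.F0 e) (.inl (.inl ())) 1 = 1 / 2 := by
  simp [col, Pool.Agent.W682.TW.F0]

theorem Gc_ne (e : Ix n ≃ Fin m) (ι : Ix n) (h : ι ≠ .inl (.inl ())) :
    Gc e (Pool.Agent.W682.TW.F0 e) ι = 0 := by
  unfold Gc
  rw [show ip (kr n ι) (col e (Pool.Agent.W682.TW.F0 e) ι) = 0 by
    unfold ip; rw [col_zero, col_one e ι h]; ring, zero_div]

theorem Gc_o (e : Ix n ≃ Fin m) : Gc e (Pool.Agent.W682.TW.F0 e) (.inl (.inl ())) = 1 / 2 := by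
  unfold Gc ip
  rw [col_zero, col_o]
  simp [kr, kv]

theorem Oc_eq (e : Ix n ≃ Fin m) (ι : Ix n) : Oc e (Pool.Agent.W682.TW.F0 e) ι = 0 := by
  unfold Oc
  rw [show dt (kr n ι) (col e (Pool.Agent.W682.TW.F0 e) ι) = 0 by
    unfold dt
    rw [col_zero]
    by_cases h : ι = .inl (.inl ())
    · subst h
      simp [kr, kv]
    · rw [col_one e ι h]; ring, zero_div]

theorem st_eq (e : Ix n ≃ Fin m) : st e (Pool.Agent.W682.TW.F0 e) = (1 / 2, 0, 0) := by
  unfold st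
  refine Prod.ext ?_ (Prod.ext ?_ ?_)
  · simp only
    rw [Fintype.sum_sum_type]
    have h1 : ∑ i : Fin n, Gc e (Pool.Agent.W682.TW.F0 e) (.inr (.inl i)) = 0 :=
      Finset.sum_eq_zero fun i _ => Gc_ne e _ (by simp)
    have h2 : ∑ i : Fin (2 * n), Gc e (Pool.Agent.W682.TW.F0 e) (.inl (.inr i)) = 0 :=
      Finset.sum_eq_zero fun i _ => Gc_ne e _ (by simp)
    rw [h1, h2]
    simp [Gc_o]
  · funext i
    exact Gc_ne e _ (by simp)
  · funext i
    exact Gc_ne e _ (by simp)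

theorem main : S_F0 := by
  intro n m e σ ε Mc k c hn
  have hSO : SO e (Pool.Agent.W682.TW.F0 e) = 0 := by
    unfold SO
    exact Finset.sum_eq_zero fun ι _ => by rw [Oc_eq]; ring
  have hNN : NN e c (Pool.Agent.W682.TW.F0 e) = 0 := by
    unfold NN
    rw [Finset.sum_eq_zero, mul_zero]
    intro ι _
    refine Finset.sum_eq_zero fun κ _ => ?_
    rw [show dt (col e (Pool.Agent.W682.TW.F0 e) (za n ι)) (col e (Pool.Agent.W682.TW.F0 e) (za n κ)) = 0 by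
      unfold dt; rw [col_zero, col_zero]; ring, zero_div]
  rw [hSO, hNN, st_eq, mul_zero, add_zero, add_zero]
  have hn0 : (0 : ℝ) < (n : ℝ) ^ 2 := by
    have : (0 : ℝ) < n := by exact_mod_cast hn
    positivity
  have hcond : -(1 / (n : ℝ) ^ 2) ≤ ((1 / 2, 0, 0) : St n).1 ∧
      ((1 / 2, 0, 0) : St n).1 ≤ 1 + 1 / (n : ℝ) ^ 2 := by
    have h1 : (0 : ℝ) < 1 / (n : ℝ) ^ 2 := by positivity
    constructor
    · show -(1 / (n : ℝ) ^ 2) ≤ 1 / 2
      linarith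
    · show (1 : ℝ) / 2 ≤ 1 + 1 / (n : ℝ) ^ 2
      linarith
  unfold gg
  rw [if_pos hcond]
  refine le_trans (le_of_eq ?_) (le_max_left _ _)
  have hpsi : psi n σ (0 : Fin n → ℝ) = 0 := by
    have hY : ∀ i, Yf n σ (0 : Fin n → ℝ) i = 0 := fun i => by simp [Yf]
    unfold psi
    simp [hY]
  have hpf : pf n σ (0 : Fin n → ℝ) 0 = 0 := by simp [pf]
  have hsq : Pool.Agent.W682.TW.sq (0 : Fin n → ℝ) = 0 := by simp [Pool.Agent.W682.TW.sq]
  unfold g1
  simp only [hpsi, hpf, hsq]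
  ring

end Pool.Agent.W377.TW.F0
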